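import Pool.Agent.J6H84.RG.Stm
import Pool.Agent.Y347.VL.ZM

/-!
# Project RG (helper84), module EXN (helper22): linear sets over `ZMod n` with the regular
translation group (after the module `Pool.Agent.J6H75.TS.Ex`)
-/

set_option autoImplicit false

namespace Pool.Agent.J6H22.RG.ExN

theorem main : Pool.Agent.J6H84.RG.S_ExN := by
  intro m n hm hmn
  have hn : 2 ≤ n := by
    by_contra h
    have h0 : n = 0 ∨ n = 1 := by omega
    rcases h0 with rfl | rfl
    · rw [Nat.minFac_zero] at hmn
      omega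
    · rw [Nat.minFac_one] at hmn
      omega
  have : NeZero n := ⟨by omega⟩
  have h := (Pool.Agent.Y347.VL.isGreatest_zmod (m := m) (n := n) (by omega) hn).1
  rw [if_neg (by omega), if_neg (by omega), max_eq_right (by omega)] at h
  obtain ⟨C, hC, τ, σ, a, hl⟩ := h
  refine ⟨C, hC, ?_⟩
  let s : (Fin m → ZMod n) → Equiv.Perm (Fin m → Fin n) := fun v =>
    Equiv.piCongrRight (fun i => (τ i).trans ((Equiv.addRight (v i)).trans (τ i).symm))
  have hs : ∀ v z i, s v z i = (τ i).symm (τ i (z i) + v i) := fun v z i => rfl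
  let φ : Multiplicative (Fin m → ZMod n) →* Equiv.Perm (Fin m → Fin n) :=
    MonoidHom.mk' (fun v => s v.toAdd) (fun v w => by
      refine Equiv.ext fun z => funext fun i => ?_
      rw [Equiv.Perm.mul_apply, hs, hs, hs, Equiv.apply_symm_apply, toAdd_mul, Pi.add_apply]
      congr 1
      ring)
  have hφ : ∀ v, φ v = s v.toAdd := fun v => rfl
  have hinj : Function.Injective φ := by
    intro v w hvw
    refine Multiplicative.toAdd.injective (funext fun i => ?_)
    have h1 := congrFun (congrArg (fun g : Equiv.Perm (Fin m → Fin n) => g (fun _ => 0)) hvw) i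
    change s v.toAdd (fun _ => 0) i = s w.toAdd (fun _ => 0) i at h1
    rw [hs, hs] at h1
    exact add_left_cancel ((τ i).symm.injective h1)
  refine ⟨φ.range, ?_, ?_, ?_⟩
  · rintro g ⟨v, rfl⟩ j
    rw [hφ]
    refine ⟨(σ j).trans ((Equiv.addRight (∑ i, a j i * v.toAdd i)).trans (σ j).symm), fun z => ?_⟩
    show C ((1 : Equiv.Perm (Fin (n.minFac + 1))) j) (s v.toAdd z) =
      (σ j).symm (σ j (C j z) + ∑ i, a j i * v.toAdd i)
    rw [Equiv.Perm.one_apply, Equiv.eq_symm_apply, hl, hl, ← Finset.sum_add_distrib]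
    refine Finset.sum_congr rfl fun i _ => ?_
    rw [hs, Equiv.apply_symm_apply]
    ring
  · intro x y
    refine ⟨s (fun i => τ i (y i) - τ i (x i)),
      ⟨Multiplicative.ofAdd (fun i => τ i (y i) - τ i (x i)), rfl⟩, ?_⟩
    funext i
    rw [hs, Equiv.symm_apply_eq]
    ring
  · rw [← Nat.card_congr (MonoidHom.ofInjective hinj).toEquiv, Nat.card_congr Multiplicative.toAdd,
      Nat.card_fun, Nat.card_zmod, Nat.card_eq_fintype_card, Fintype.card_fin]

end Pool.Agent.J6H22.RG.ExN
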